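import Mathlib

set_option maxHeartbeats 400000

namespace Pool.Agent.H.MP_5f4fc7_al

open Classical

/-- Laurent polynomials over the field with two elements -/
abbrev B := ℤ →₀ ZMod 2

/-- the shift -/
noncomputable def sh (k : ℤ) : B ≃+ B := Finsupp.domCongr (Equiv.addRight k)

@[simp] theorem sh_ap (k : ℤ) (x : B) (i : ℤ) : sh k x i = x (i - k) := by
  simp [sh, sub_eq_add_neg]

@[simp] theorem sh_sh (k l : ℤ) (x : B) : sh k (sh l x) = sh (l + k) x := by
  ext i; simp [sub_sub, add_comm]

@[simp] theorem sh_zero (x : B) : sh 0 x = x := by ext; simp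

theorem sh_mul (k : ℤ) (x y : B) : sh k (x * y) = sh k x * sh k y := by ext; simp

theorem z2 : ∀ a : ZMod 2, a + a = 0 := by decide

@[simp] theorem bb (x : B) : x + x = 0 := by ext; simp [z2]

@[simp] theorem bb' (x y : B) : x + (x + y) = y := by rw [← add_assoc, bb, zero_add]

@[simp] theorem bb'' (x y : B) : y + x + x = y := by rw [add_assoc, bb, add_zero]

theorem lowb (x : B) : ∃ r, ∀ v < r, x v = 0 := by
  obtain ⟨r, hr⟩ := x.support.bddBelow
  exact ⟨r, fun v hv => by_contra fun h => (hr (by simpa using h)).not_gt hv⟩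

theorem noeth (I : ℕ → AddSubgroup B) (h1 : Monotone I) (h2 : ∀ n, ∀ b ∈ I n, ∀ k, sh k b ∈ I n) :
    ∃ n, ∀ m, n ≤ m → I m = I n := by
  haveI : IsNoetherianRing (AddMonoidAlgebra (ZMod 2) ℤ) :=
    Algebra.FiniteType.isNoetherianRing (ZMod 2) _
  let J : ℕ →o Ideal (AddMonoidAlgebra (ZMod 2) ℤ) :=
    ⟨fun n => ⟨⟨⟨{p | p.coeff ∈ I n}, fun ha hb => (I n).add_mem ha hb⟩, zero_mem (I n)⟩, fun r p hp => by
      induction r using AddMonoidAlgebra.induction_linear with
      | zero => simpa using zero_mem (I n)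
      | add a b ha hb => rw [add_smul]; exact (I n).add_mem ha hb
      | single k a =>
        have : ∀ a : ZMod 2, a = 0 ∨ a = 1 := by decide
        rcases this a with rfl | rfl
        · simpa using zero_mem (I n)
        · have : (AddMonoidAlgebra.single k (1 : ZMod 2) • p).coeff = sh k p.coeff := by
            ext i
            rw [smul_eq_mul, AddMonoidAlgebra.coeff_single_mul_apply, one_mul, sh_ap, neg_add_eq_sub]
          exact (congrArg (· ∈ I n) this).mpr (h2 n _ hp k)⟩, fun a b h p hp => h1 h hp⟩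
  obtain ⟨n, hn⟩ := monotone_stabilizes_iff_noetherian.2 inferInstance J
  refine ⟨n, fun m hm => AddSubgroup.ext fun x => ?_⟩
  exact (SetLike.ext_iff.1 (hn m hm) (AddMonoidAlgebra.ofCoeff x)).symm

/-- lowest term -/
def low (x : B) (v : ℤ) : Prop := x v ≠ 0 ∧ ∀ w < v, x w = 0

/-- radial functions -/
noncomputable def rho (i : ℤ) (x : B) : ZMod 2 := if ∃ j : ℕ, low x (i - 2 ^ j) then 1 else 0

/-- combinations of radial functions -/
noncomputable def RR (x : B) : B →ₗ[ZMod 2] ZMod 2 :=
  Finsupp.linearCombination _ fun i => rho i x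

theorem RR_sh (k : ℤ) (x c : B) : RR (sh (-k) x) c = RR x (sh k c) := by
  have : ∀ v, low (sh (-k) x) v ↔ low x (v + k) := fun v => by
    simp only [low, sh_ap, sub_neg_eq_add]
    exact and_congr_right fun _ => ⟨fun h w hw => by simpa using h (w - k) (by omega),
      fun h w hw => h _ (by omega)⟩
  induction c using Finsupp.induction_linear with
  | zero => simp
  | add a b ha hb => simp [ha, hb]
  | single i a =>
    have e : sh k (Finsupp.single i a) = Finsupp.single (i + k) a := by simp [sh]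
    simp [RR, e, rho, this, sub_add_eq_add_sub]

theorem RR_add {x y : B} {v : ℤ} (h1 : x v ≠ 0) (h2 : ∀ w ≤ v, y w = 0) : RR (x + y) = RR x := by
  have : ∀ u, low (x + y) u ↔ low x u := fun u => by
    refine ⟨fun h => ?_, fun h => ?_⟩
    · have : u ≤ v := not_lt.1 fun e => h1 (by simpa [h2] using h.2 v e)
      exact ⟨by simpa [h2 u this] using h.1, fun w hw => by simpa [h2 w (by omega)] using h.2 w hw⟩
    · have : u ≤ v := not_lt.1 fun e => h1 (h.2 v e)
      exact ⟨by simpa [h2 u this] using h.1, fun w hw => by simpa [h2 w (by omega)] using h.2 w hw⟩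
  simp [RR, rho, this]

theorem nonconst {c : B} {r : ℤ} (h : ∀ v < r, ∀ w < r,
    RR (Finsupp.single v 1) c = RR (Finsupp.single w 1) c) : c = 0 := by
  by_contra hc
  have hne := Finsupp.support_nonempty_iff.2 hc
  set a := c.support.min' hne
  obtain ⟨j, hj⟩ : ∃ j : ℕ, max (c.support.max' hne - a + 1) (a - r) < 2 ^ j :=
    pow_unbounded_of_one_lt _ one_lt_two
  have lw : ∀ v u, low (Finsupp.single v 1) u ↔ u = v := fun v u =>
    ⟨fun h => by_contra fun e => h.1 (Finsupp.single_eq_of_ne e),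
      by rintro rfl; exact ⟨by simp, fun w hw => Finsupp.single_eq_of_ne hw.ne⟩⟩
  have pw : ∀ (e : ℤ) (l : ℕ), 0 < e → e < 2 ^ j → 2 ^ j + e ≠ 2 ^ l := fun e l h1 h2 h3 => by
    have : j < l := (pow_lt_pow_iff_right₀ (a := (2 : ℤ)) one_lt_two).1 (by omega)
    have := pow_le_pow_right₀ (a := (2 : ℤ)) one_le_two (Nat.succ_le_of_lt this)
    rw [pow_succ] at this
    omega
  have := h (a - 2 ^ j) (by omega) (a - 2 ^ j - 1) (by omega)
  simp only [RR, Finsupp.linearCombination_apply, Finsupp.sum, rho, lw] at this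
  rw [Finset.sum_eq_single a, Finset.sum_eq_zero] at this
  · exact Finsupp.mem_support_iff.1 (c.support.min'_mem hne) (by simpa using this)
  · intro i hi
    have := c.support.min'_le i hi
    have := c.support.le_max' i hi
    rw [if_neg, smul_zero]
    rintro ⟨l, hl⟩
    exact pw (i - a + 1) l (by omega) (by omega) (by omega)
  · intro i hi hia
    have := c.support.min'_le i hi
    have := c.support.le_max' i hi
    rw [if_neg, smul_zero]
    rintro ⟨l, hl⟩
    exact pw (i - a) l (by omega) (by omega) (by omega)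
  · exact fun h => (h (c.support.min'_mem hne)).elim

/-- local constancy -/
def Loc (r : ℤ) (f : B → ZMod 2) : Prop := ∀ x y : B, (∀ v < r, x v = y v) → f x = f y

/-- behaviour at infinity -/
def Inf (f : B → ZMod 2) (b c : B) : Prop :=
  ∃ r, ∀ (x : B) v, v < r → x v ≠ 0 → f x = RR x (b * x + c)

theorem loc_op {f f' : B → ZMod 2} (h : ∃ r, Loc r f) (h' : ∃ r, Loc r f') (k : ℤ) (b : B) :
    ∃ r, Loc r fun x => f (sh (-k) (x + b)) + f' x := by
  obtain ⟨r, hr⟩ := h
  obtain ⟨r', hr'⟩ := h'
  refine ⟨max (r + k) r', fun x y e => ?_⟩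
  simp only [hr' x y fun v hv => e v (by omega)]
  rw [hr _ (sh (-k) (y + b)) fun v hv => by simp [e (v + k) (by omega)]]

theorem inf_op {f f' : B → ZMod 2} {b c b' c' : B} (h : Inf f b c) (h' : Inf f' b' c') (k : ℤ)
    (e : B) : Inf (fun x => f (sh (-k) (x + e)) + f' x) (b' + sh k b)
      (c' + sh k c + sh k b * e) := by
  obtain ⟨r, hr⟩ := h
  obtain ⟨r', hr'⟩ := h'
  obtain ⟨s, hs⟩ := lowb e
  refine ⟨min (r + k) (min r' s), fun x v h1 h2 => ?_⟩
  simp only [hr' x v (by omega) h2]
  rw [hr _ (v - k) (by omega) (by simpa [hs v (by omega)] using h2), RR_sh,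
    RR_add h2 fun w hw => hs w (by omega), ← map_add]
  congr 1
  simp only [map_add, sh_mul, sh_sh, neg_add_cancel, sh_zero, mul_add, add_mul]
  abel

theorem fixed {f : B → ZMod 2} {c : B} (h : Inf f 0 c) {N : Set B}
    (h1 : ∀ r, ∃ b ∈ N, ∃ v < r, b v ≠ 0) (h2 : ∀ b ∈ N, ∀ x, f (x + b) = f x) : f = 0 := by
  obtain ⟨r, hr⟩ := h
  have a : ∀ (x b : B) v, b ∈ N → v < r → b v ≠ 0 → (∀ w ≤ v, x w = 0) → f x = RR b c :=
    fun x b v hb h3 h4 h5 => by
      rw [← h2 b hb, hr _ v h3 (by simpa [h5] using h4), add_comm, RR_add h4 h5]; simp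
  have : c = 0 := nonconst (r := r) fun v hv w hw => by
    obtain ⟨b, hb, u, hu, h3⟩ := h1 (min v w)
    have e1 := hr (Finsupp.single v 1) v hv (by simp)
    have e2 := hr (Finsupp.single w 1) w hw (by simp)
    rw [a _ b u hb (by omega) h3 fun t ht => Finsupp.single_eq_of_ne (by omega)] at e1 e2
    simpa using e1.symm.trans e2
  ext x
  obtain ⟨s, hs⟩ := lowb x
  obtain ⟨b, hb, u, hu, h3⟩ := h1 (min r s)
  simp [a x b u hb (by omega) h3 fun t ht => hs t (by omega), this]

/-- nilpotent action by translations -/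
def nilF (N : Set B) : ℕ → (B → ZMod 2) → Prop
  | 0, f => f = 0
  | n + 1, f => ∀ b ∈ N, nilF N n fun x => f (x + b) + f x

theorem nilF_mono {N N' : Set B} (h : N ⊆ N') : ∀ {n f}, nilF N' n f → nilF N n f
  | 0, _, e => e
  | _ + 1, _, e => fun b hb => nilF_mono h (e b (h hb))

theorem nilF_add {N : Set B} : ∀ {n f g}, nilF N n f → nilF N n g → nilF N n fun x => f x + g x
  | 0, f, g, e, e' => by rw [show f = 0 from e, show g = 0 from e']; ext; simp
  | _ + 1, f, g, e, e' => fun b hb => by
    convert nilF_add (e b hb) (e' b hb) using 2; ring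

theorem nilF_tr {N : Set B} (y : B) : ∀ {n f}, nilF N n f → nilF N n fun x => f (x + y)
  | 0, f, e => by rw [show f = 0 from e]; rfl
  | _ + 1, f, e => fun b hb => by
    convert nilF_tr y (e b hb) using 2; rw [add_right_comm]

theorem nilF_succ {N : Set B} {n f} (h : nilF N n f) : nilF N (n + 1) f :=
  fun b _ => nilF_add (nilF_tr b h) h

theorem nilF_ext {N N' : Set B} {z : B} (h : ∀ b ∈ N', b ∈ N ∨ b + z ∈ N) {n f} (e : nilF N n f) :
    nilF N' (n + 1) f := by
  have a : ∀ n f, nilF N n f → (∀ x, f (x + z) = f x) → nilF N' n f := fun n => by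
    induction n with
    | zero => exact fun _ e _ => e
    | succ n ih =>
      intro f e hz b hb
      rcases h b hb with h | h
      · exact ih _ (e b h) fun x => by simp only [add_right_comm x z, hz]
      · refine ih _ ?_ fun x => by simp only [add_right_comm x z, hz]
        simpa only [← add_assoc, hz] using e _ h
  induction n generalizing f with
  | zero => exact nilF_succ (n := 0) e
  | succ n ih =>
    intro b hb
    rcases h b hb with h | h
    · exact ih (e b h)
    · convert nilF_add (ih (nilF_tr z e _ h)) (a _ _ (nilF_add (nilF_tr z e) e) fun x => by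
        simp [add_comm]) using 2 with x
      simp only [← add_assoc, bb'']
      linear_combination (-1 : ZMod 2) * z2 (f (x + z))

/-- the filtration -/
def Nm (m : ℤ) : Set B := {b | ∀ v < m, b v = 0}

theorem Nm_succ {m : ℤ} {b : B} (h : b ∈ Nm m) :
    b ∈ Nm (m + 1) ∨ b + Finsupp.single m 1 ∈ Nm (m + 1) := by
  have : ∀ a : ZMod 2, a = 0 ∨ a + 1 = 0 := by decide
  refine (this (b m)).imp (fun e v hv => ?_) fun e v hv => ?_ <;>
    rcases (Int.le_of_lt_add_one hv).eq_or_lt with rfl | hv
  exacts [e, h v hv, by simpa using e, by simp [h v hv, hv.ne]]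

theorem nil_loc {f : B → ZMod 2} {r : ℤ} (h : Loc r f) (m : ℤ) : ∃ n, nilF (Nm m) n f := by
  have : ∀ (d : ℕ) m, r ≤ m + d → nilF (Nm m) (d + 1) f := fun d => by
    induction d with
    | zero =>
      intro m hm b hb
      ext x
      rw [h (x + b) x fun v hv => by simp [hb v (by omega)]]
      exact z2 _
    | succ d ih => exact fun m hm => nilF_ext (fun b => Nm_succ) (ih (m + 1) (by omega))
  exact ⟨_, this (r - m).toNat m (by omega)⟩

theorem desc {N : Set B} (T : Set (B → ZMod 2))
    (hT : ∀ f ∈ T, ∀ b ∈ N, (fun x => f (x + b) + f x) ∈ T) :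
    ∀ n, ∀ f ∈ T, f ≠ 0 → nilF N n f → ∃ g ∈ T, g ≠ 0 ∧ ∀ b ∈ N, ∀ x, g (x + b) = g x
  | 0, _, _, h, e => (h e).elim
  | n + 1, f, hf, h, e => by
    by_cases h1 : ∀ b ∈ N, (fun x => f (x + b) + f x) = 0
    · have : ∀ a b : ZMod 2, a + b = 0 → a = b := by decide
      exact ⟨f, hf, h, fun b hb x => this _ _ (congrFun (h1 b hb) x)⟩
    · push Not at h1
      obtain ⟨b, hb, h1⟩ := h1
      exact desc T hT n _ (hT f hf b hb) h1 (e b hb)

theorem simpleA (T : AddSubgroup (B → ZMod 2)) (h1 : ∀ f ∈ T, ∀ b, (fun x => f (x + b)) ∈ T)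
    (h2 : ∀ f ∈ T, ∀ k, (fun x => f (sh k x)) ∈ T) {u} (hu : u ∈ T) (h0 : u ≠ 0)
    (hl : ∃ r, Loc r u) (hi : Inf u 0 0) {g} (gl : ∃ r, Loc r g) (gi : Inf g 0 0) : g ∈ T := by
  obtain ⟨r, hr⟩ := hl
  obtain ⟨s, hs⟩ := hi
  obtain ⟨n, hn⟩ := nil_loc hr s
  have o : ∀ a : ZMod 2, a ≠ 0 → a = 1 := by decide
  obtain ⟨w, ⟨w1, w2⟩, w3, w4⟩ := desc (N := Nm s) {f | f ∈ T ∧ ∀ x, f x ≠ 0 → x ∈ Nm s}
    (fun f hf b hb => ⟨add_mem (h1 f hf.1 b) hf.1, fun x hx => by
      by_cases h : f x = 0
      · intro v hv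
        simpa [hb v hv] using hf.2 (x + b) (by simpa [h] using hx) v hv
      · exact hf.2 x h⟩) n u ⟨hu, fun x hx v hv => by_contra fun h => hx (by
        simpa using hs x v hv h)⟩ h0 hn
  obtain ⟨y, hy⟩ := Function.ne_iff.1 w3
  have a1 : ∀ m (y : B), (fun x => if x + y ∈ Nm m then (1 : ZMod 2) else 0) ∈ T := fun m z => by
    convert h1 _ (h2 _ w1 (s - m)) z using 2 with x
    have : x + z ∈ Nm m ↔ sh (s - m) (x + z) ∈ Nm s :=
      ⟨fun h v hv => by rw [sh_ap]; exact h _ (by omega),
        fun h v hv => by simpa using h (v + (s - m)) (by omega)⟩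
    rw [this]
    split_ifs with h
    · rw [← bb' y (sh _ _), w4 _ fun v hv => by rw [Finsupp.add_apply, h v hv, w2 y hy v hv]; rfl]
      exact (o _ hy).symm
    · exact by_contra fun e => h (w2 _ (Ne.symm e))
  have a2 : ∀ (d : ℕ) m (y : B) g, Loc (m + d) g → (∀ x, g x ≠ 0 → x + y ∈ Nm m) → g ∈ T := by
    intro d
    induction d with
    | zero =>
      intro m y g e1 e2
      have e3 : ∀ x, x + y ∈ Nm m → g x = g y := fun x hx => e1 _ _ fun v hv => by
        have : ∀ a b : ZMod 2, a + b = 0 → a = b := by decide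
        exact this _ _ (hx v (by simpa using hv))
      by_cases h : g y = 0
      · convert zero_mem T
        ext x
        exact by_contra fun e => e ((e3 x (e2 x e)).trans h)
      · convert a1 m y using 2 with x
        split_ifs with hx
        · rw [e3 x hx, o _ h]
        · exact by_contra fun e => hx (e2 x e)
    | succ d ih =>
      intro m y g e1 e2
      have l : ∀ a, Loc (m + 1 + d) fun x => if x m = a then g x else 0 := fun a x z e => by
        simp only [e m (by omega), e1 x z fun v hv => e v (by omega)]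
      convert add_mem (ih (m + 1) y _ (l (y m)) fun x hx => ?_)
        (ih (m + 1) (y + Finsupp.single m 1) _ (l (y m + 1)) fun x hx => ?_) using 1
      · ext x
        have : ∀ a b c : ZMod 2, c = (if a = b then c else 0) + if a = b + 1 then c else 0 := by
          decide
        exact this _ _ _
      all_goals
        rw [ne_eq, ite_eq_right_iff, _root_.not_imp] at hx
        intro v hv
        rcases (Int.le_of_lt_add_one hv).eq_or_lt with rfl | hv
        · simp [hx.1, z2]
        · simpa [hv.ne] using e2 x hx.2 v hv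
  obtain ⟨r, hr⟩ := gl
  obtain ⟨s, hs⟩ := gi
  exact a2 (r - s).toNat s 0 g (fun x y e => hr x y fun v hv => e v (by omega))
    fun x hx v hv => by_contra fun h => hx (by simpa using hs x v hv (by simpa using h))

end Pool.Agent.H.MP_5f4fc7_al
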