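import Mathlib

set_option maxHeartbeats 400000

namespace Pool.Agent.H.MP_5f4fc7_al

open Classical

/-- block lengths -/
def LL : ℕ → ℤ
  | 0 => 1
  | s + 1 => 6 * ((s + 1) * LL s)

/-- units -/
def uu (s : ℕ) : ℤ := (s + 1) * LL s

theorem LL_succ (s : ℕ) : LL (s + 1) = 6 * uu s := rfl

theorem LL_pos : ∀ s, 0 < LL s
  | 0 => one_pos
  | s + 1 => by have := LL_pos s; unfold LL; positivity

theorem uu_pos (s : ℕ) : 0 < uu s := by have := LL_pos s; unfold uu; positivity

/-- the marked positions -/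
inductive Ev : ℕ → ℤ → Prop
  | base (s n) : 6 * uu s ∣ n → Ev s n
  | step (s n m) (c : ℤ) : c = 2 ∨ c = 3 → Ev (s + 1) n → m = n + c * uu s → Ev s m

theorem six_dvd (s : ℕ) : 6 * uu s ∣ uu (s + 1) := Dvd.intro_left ((s + 1 : ℕ) + 1 : ℤ) rfl

theorem ev_uu {s n} (h : Ev s n) : uu s ∣ n := by
  induction h with
  | base s n h => exact (Dvd.intro_left _ rfl).trans h
  | step s n m c _ _ e ih =>
    rw [e]
    exact dvd_add (((Dvd.intro_left _ rfl).trans (six_dvd s)).trans ih) (Dvd.intro_left _ rfl)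

theorem ev_dvd {s n} (h : Ev (s + 1) n) : 6 * uu s ∣ n :=
  (six_dvd s).trans (ev_uu h)

theorem ev_iff {s n} : Ev s n ↔ 6 * uu s ∣ n ∨ Ev (s + 1) (n - 2 * uu s) ∨
    Ev (s + 1) (n - 3 * uu s) := by
  refine ⟨fun h => ?_, ?_⟩
  · cases h with
    | base _ _ h => exact Or.inl h
    | step _ n _ c hc h e => rcases hc with rfl | rfl <;> simp [e, h]
  · rintro (h | h | h)
    exacts [.base _ _ h, .step _ _ _ 2 (by simp) h (by ring), .step _ _ _ 3 (by simp) h (by ring)]

theorem six {s} {a : ℤ} : 6 * uu s ∣ uu s * a ↔ a % 6 = 0 := by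
  rw [mul_comm, mul_dvd_mul_iff_left (uu_pos s).ne', Int.dvd_iff_emod_eq_zero]

theorem ev_u {s} {a : ℤ} : Ev s (uu s * a) ↔ a % 6 = 0 ∨ (a % 6 = 2 ∧ Ev (s + 1) (uu s * (a - 2))) ∨
    (a % 6 = 3 ∧ Ev (s + 1) (uu s * (a - 3))) := by
  have : ∀ c, uu s * a - c * uu s = uu s * (a - c) := fun c => by ring
  rw [ev_iff, six, this, this]
  refine or_congr Iff.rfl (or_congr ⟨fun h => ⟨?_, h⟩, fun h => h.2⟩ ⟨fun h => ⟨?_, h⟩, fun h => h.2⟩)
    <;> have := six.1 (ev_dvd h) <;> omega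

/-- agreement on a window -/
def agree (r n m : ℤ) : Prop := ∀ i, |i| ≤ r → (Ev 0 (n + i) ↔ Ev 0 (m + i))

/-- local functions -/
def Lo {X : Type} (g : ℤ → X) : Prop := ∃ r, ∀ n m, agree r n m → g n = g m

theorem agree.sh {r n m : ℤ} (j : ℤ) (h : agree (r + |j|) n m) : agree r (n + j) (m + j) :=
  fun i hi => by
    simpa [add_assoc] using h (j + i) ((abs_add_le _ _).trans (by linarith))

theorem Lo.sh {X : Type} {g : ℤ → X} (h : Lo g) (j : ℤ) : Lo fun n => g (n + j) :=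
  h.elim fun _ hr => ⟨_, fun _ _ e => hr _ _ (e.sh j)⟩

theorem Lo.two {X Y Z : Type} {g : ℤ → X} {g' : ℤ → Y} (F : X → Y → Z) (h : Lo g) (h' : Lo g') :
    Lo fun n => F (g n) (g' n) := by
  obtain ⟨r, hr⟩ := h
  obtain ⟨r', hr'⟩ := h'
  refine ⟨max r r', fun n m e => ?_⟩
  simp only [hr n m fun i hi => e i (le_max_of_le_left hi),
    hr' n m fun i hi => e i (le_max_of_le_right hi)]

theorem Lo.one {X Y : Type} {g : ℤ → X} (F : X → Y) (h : Lo g) : Lo fun n => F (g n) :=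
  Lo.two (fun a _ => F a) h h

theorem lo_const {X : Type} (a : X) : Lo fun _ => a := ⟨0, fun _ _ _ => rfl⟩

theorem dvd_iff {s n} : 6 * uu s ∣ n ↔ Ev s n ∧ ¬ Ev s (n + uu s) ∧ ¬ Ev s (n + -uu s) := by
  by_cases h : uu s ∣ n
  · obtain ⟨a, rfl⟩ := h
    rw [show uu s * a + uu s = uu s * (a + 1) by ring, show uu s * a + -uu s = uu s * (a - 1) by ring,
      six, ev_u, ev_u, ev_u, show a + 1 - 3 = a - 2 by ring, show a - 1 - 2 = a - 3 by ring]
    refine ⟨fun h => ⟨Or.inl h, by omega, by omega⟩, ?_⟩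
    rintro ⟨h | h | h, h1, h2⟩
    exacts [h, (h1 (Or.inr (Or.inr ⟨by omega, h.2⟩))).elim,
      (h2 (Or.inr (Or.inl ⟨by omega, h.2⟩))).elim]
  · exact ⟨fun e => (h ((Dvd.intro_left _ rfl).trans e)).elim, fun e => (h (ev_uu e.1)).elim⟩

theorem lo_dvd {s} (h : Lo (Ev s)) : Lo fun n => 6 * uu s ∣ n := by
  simp only [dvd_iff]
  exact Lo.two And h (Lo.two (fun a b => ¬ a ∧ ¬ b) (h.sh _) (h.sh _))

theorem lo_ev : ∀ s, Lo (Ev s)
  | 0 => ⟨0, fun n m h => by simpa using h 0 (by simp)⟩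
  | s + 1 => by
    convert Lo.two And (lo_dvd (lo_ev s)) ((lo_ev s).sh (2 * uu s)) using 2 with n
    refine ⟨fun h => ⟨ev_dvd h, .step _ _ _ 2 (by simp) h rfl⟩, ?_⟩
    rintro ⟨⟨a, rfl⟩, h⟩
    rw [show 6 * uu s * a + 2 * uu s = uu s * (6 * a + 2) by ring, ev_u] at h
    rcases h with h | h | h
    · omega
    · convert h.2 using 1; ring
    · omega

theorem lo_per {X : Type} {p : ℤ → X} {P : ℤ} (h0 : P ≠ 0) (h : Function.Periodic p P) : Lo p := by
  obtain ⟨s, hs⟩ : ∃ s : ℕ, P.natAbs = s + 1 := ⟨P.natAbs - 1, by omega⟩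
  obtain ⟨r, hr⟩ := lo_dvd (lo_ev s)
  have u := uu_pos s
  refine ⟨r + 6 * uu s, fun n m e => ?_⟩
  have h1 := Int.emod_nonneg (-n) (b := 6 * uu s) (by omega)
  have h2 := Int.emod_lt_of_pos (-n) (b := 6 * uu s) (by omega)
  have := hr _ _ (agree.sh (-n % (6 * uu s)) fun i hi => e i (by rw [abs_of_nonneg h1] at hi; omega))
  have d1 : 6 * uu s ∣ n + -n % (6 * uu s) := by
    rw [Int.dvd_iff_emod_eq_zero]; simp
  have d2 : P ∣ 6 * uu s := Dvd.dvd.mul_left (Dvd.dvd.mul_right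
    (by rw [← Int.natAbs_dvd, hs]; simp) _) _
  obtain ⟨t, ht⟩ := d2.trans (dvd_sub d1 (this.mp d1))
  rw [show n = m + t * P by linarith]
  exact h.int_mul t m

theorem anti {X : Type} [AddCommGroup X] {c : ℕ} (hc : c ≠ 0) (hX : ∀ x : X, c • x = 0) {k : ℤ}
    (hk : k ≠ 0) {p : ℤ → X} {P : ℤ} (h0 : P ≠ 0) (h : Function.Periodic p P) :
    ∃ (q : ℤ → X) (Q : ℤ), Q ≠ 0 ∧ Function.Periodic q Q ∧ ∀ n, q (n + k) - q n = p n := by
  have ex : ∀ a : ℤ → X, ∃ F : ℤ → X, ∀ j, F (j + 1) - F j = a j := fun a => by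
    refine ⟨fun j => ∑ i ∈ Finset.range j.toNat, a i - ∑ i ∈ Finset.range (-j).toNat, a (-1 - i),
      fun j => ?_⟩
    rcases le_or_gt 0 j with h | h
    · obtain ⟨j, rfl⟩ := Int.eq_ofNat_of_zero_le h
      simp [show (-1 + -(j : ℤ)).toNat = 0 by omega, Finset.sum_range_succ]
    · obtain ⟨j, rfl⟩ : ∃ t : ℕ, j = -1 - t := ⟨(-1 - j).toNat, by omega⟩
      simp only [show (-1 - (j : ℤ) + 1).toNat = 0 by omega, show (-1 - (j : ℤ)).toNat = 0 by omega,
        show (-(-1 - (j : ℤ) + 1)).toNat = j by omega, show (-(-1 - (j : ℤ))).toNat = j + 1 by omega,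
        Finset.sum_range_succ]
      simp
  choose F hF using fun r => ex fun j => p (r + k * j)
  let q : ℤ → X := fun n => F (n % k) (n / k)
  have hq : ∀ n, q (n + k) - q n = p n := fun n => by
    simp only [q, Int.add_emod_right]
    rw [show (n + k) / k = n / k + 1 by simpa using Int.add_mul_ediv_right n 1 hk, hF,
      Int.emod_add_mul_ediv]
  have h1 : Function.Periodic (fun n => q (n + P * k) - q n) k := fun n => by
    have := hq (n + P * k)
    rw [show p (n + P * k) = p n from mul_comm k P ▸ h.int_mul k n, ← hq n] at this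
    simp only [add_right_comm n k]
    linear_combination (norm := abel1) this
  have h2 : ∀ (j : ℕ) n, q (n + j * (P * k)) - q n = j • (q (n + P * k) - q n) := fun j n => by
    induction j with
    | zero => simp
    | succ j ih =>
      have := h1.int_mul (j * P) n
      simp only [mul_assoc, Int.cast_mul, Int.cast_natCast, Int.cast_id] at this
      rw [succ_nsmul, ← ih, ← this]
      push_cast
      rw [add_mul, one_mul, ← add_assoc]
      abel
  exact ⟨q, c * (P * k), by positivity, fun n => sub_eq_zero.1 (by rw [h2, hX]), hq⟩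

theorem steps {X : Type} [AddCommGroup X] (T : AddSubgroup (ℤ → X)) {k : ℤ}
    (hT : ∀ g ∈ T, ∀ j, (fun n => g (n + k * j)) ∈ T) {q : ℤ → X}
    (h : (fun n => q (n + k) - q n) ∈ T) (j : ℤ) : (fun n => q (n + k * j) - q n) ∈ T := by
  induction j using Int.induction_on with
  | zero => convert T.zero_mem using 1; ext; simp
  | succ j ih =>
    convert add_mem (hT _ h j) ih using 1
    ext n; simp [mul_add, add_assoc]
  | pred j ih =>
    convert sub_mem ih (hT _ h (-j - 1)) using 1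
    ext n
    simp only [Pi.sub_apply, show n + k * (-j - 1) + k = n + k * -j by ring]
    abel

/-- local coboundaries -/
def Cob (k : ℤ) : AddSubgroup (ℤ → ZMod 2) where
  carrier := {g | ∃ ψ, Lo ψ ∧ ∀ n, g n = ψ (n + k) - ψ n}
  zero_mem' := ⟨fun _ => 0, lo_const _, by simp⟩
  add_mem' := by
    rintro _ _ ⟨a, h, e⟩ ⟨b, h', e'⟩
    exact ⟨_, Lo.two (· + ·) h h', fun n => by simp only [Pi.add_apply, e, e']; ring⟩
  neg_mem' := by
    rintro _ ⟨a, h, e⟩
    exact ⟨_, h.one (- ·), fun n => by simp only [Pi.neg_apply, e]; ring⟩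

theorem cob_sh {k : ℤ} {g} (h : g ∈ Cob k) (j : ℤ) : (fun n => g (n + j)) ∈ Cob k :=
  h.elim fun _ h => ⟨_, h.1.sh j, fun n => by simp only [h.2, add_right_comm n j]⟩

/-- the indicator sequences -/
noncomputable def EE (s : ℕ) (n : ℤ) : ZMod 2 := if Ev s n then 1 else 0

theorem EE_eq (s : ℕ) : EE s = (fun n => if 6 * uu s ∣ n then 1 else 0) +
    ((fun n => EE (s + 1) (n + -(2 * uu s))) - fun n => EE (s + 1) (n + -(3 * uu s))) := by
  ext n
  have u := uu_pos s
  have hx : ∀ c : ℤ, 0 < c → c < 6 → ¬ 6 * uu s ∣ c * uu s := fun c _ _ h => by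
    have := Int.le_of_dvd (by positivity) h
    nlinarith
  simp only [EE, ev_iff (s := s), Pi.add_apply, Pi.sub_apply, ← sub_eq_add_neg]
  have a1 : 6 * uu s ∣ n → ¬ Ev (s + 1) (n - 3 * uu s) := fun h1 h3 =>
    hx 3 (by simp) (by simp) (by simpa using dvd_sub h1 (ev_dvd h3))
  have a2 : 6 * uu s ∣ n → ¬ Ev (s + 1) (n - 2 * uu s) := fun h1 h2 =>
    hx 2 (by simp) (by simp) (by simpa using dvd_sub h1 (ev_dvd h2))
  have a3 : Ev (s + 1) (n - 2 * uu s) → ¬ Ev (s + 1) (n - 3 * uu s) := fun h2 h3 =>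
    hx 1 (by simp) (by simp) (by
      rw [show 1 * uu s = n - 2 * uu s - (n - 3 * uu s) by ring]
      exact dvd_sub (ev_dvd h2) (ev_dvd h3))
  by_cases h1 : 6 * uu s ∣ n
  · simp [h1, a1 h1, a2 h1]
  · by_cases h2 : Ev (s + 1) (n - 2 * uu s)
    · simp [h1, h2, a3 h2]
    · by_cases h3 : Ev (s + 1) (n - 3 * uu s) <;> simp [h1, h2, h3]

theorem lo_EE (s : ℕ) : Lo (EE s) := (lo_ev s).one fun a => if a then (1 : ZMod 2) else 0

theorem cob_EE {k : ℤ} (hk : k ≠ 0) : EE 0 ∈ Cob k := by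
  have per : ∀ s, (fun n => if 6 * uu s ∣ n then 1 else 0) ∈ Cob k := fun s => by
    obtain ⟨q, Q, h0, h1, h2⟩ := anti (X := ZMod 2) two_ne_zero (by decide) hk
      (p := fun n => if 6 * uu s ∣ n then 1 else 0) (P := 6 * uu s) (by have := uu_pos s; omega)
      (fun n => by simp)
    exact ⟨q, lo_per h0 h1, fun n => (h2 n).symm⟩
  have : ∀ d s : ℕ, s + d + 1 = k.natAbs → EE s ∈ Cob k := by
    intro d
    induction d with
    | zero =>
      intro s hs
      obtain ⟨j, hj⟩ : k ∣ uu s := Dvd.dvd.mul_right (by rw [← Int.natAbs_dvd, ← hs]; simp) _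
      rw [EE_eq]
      refine add_mem (per s) ?_
      convert steps (Cob k) (fun g hg j => cob_sh hg _) (q := fun n => EE (s + 1) (n + -(3 * uu s)))
        ⟨_, (lo_EE _).sh _, fun _ => rfl⟩ j using 1
      ext n
      simp only [Pi.sub_apply, ← hj, show n + uu s + -(3 * uu s) = n + -(2 * uu s) by ring]
    | succ d ih =>
      intro s hs
      rw [EE_eq]
      exact add_mem (per s) (sub_mem (cob_sh (ih _ (by omega)) _) (cob_sh (ih _ (by omega)) _))
  exact this (k.natAbs - 1) 0 (by omega)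

theorem toep : ∀ (t s : ℕ) (a : ℤ), a.natAbs ≤ t →
    ∃ p, p ≠ 0 ∧ ∀ j, Ev s (LL s * a + p * j) ↔ Ev s (LL s * a) := by
  intro t
  induction t using Nat.strong_induction_on with
  | _ t ih =>
  intro s a ha
  have u := uu_pos s
  by_cases h : uu s ∣ LL s * a
  · obtain ⟨b, rfl⟩ : (s + 1 : ℤ) ∣ a :=
      (mul_dvd_mul_iff_left (LL_pos s).ne').1 (by rwa [mul_comm])
    have hb : b.natAbs ≤ t := by
      rw [Int.natAbs_mul] at ha
      exact le_trans (Nat.le_mul_of_pos_left _ (by omega)) ha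
    have e : LL s * ((s + 1) * b) = uu s * b := by unfold uu; ring
    rw [e]
    by_cases h2 : b % 6 = 2 ∨ b % 6 = 3
    · obtain ⟨p, h0, hp⟩ := ih (b / 6).natAbs (by omega) (s + 1) (b / 6) le_rfl
      refine ⟨6 * uu s * p, by positivity, fun j => ?_⟩
      have hp := hp (6 * uu s * j)
      rw [show uu s * b + 6 * uu s * p * j = uu s * (b + 6 * (p * j)) by ring, ev_u, ev_u,
        Int.add_mul_emod_self_left]
      have e : ∀ c, b % 6 = c → (Ev (s + 1) (uu s * (b + 6 * (p * j) - c)) ↔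
          Ev (s + 1) (uu s * (b - c))) := fun c hc => by
        have : b - c = 6 * (b / 6) := by omega
        convert hp using 2 <;> rw [LL_succ]
        · linear_combination uu s * this
        · linear_combination uu s * this
      exact or_congr Iff.rfl (or_congr (and_congr_right (e 2)) (and_congr_right (e 3)))
    · refine ⟨6 * uu s, by positivity, fun j => ?_⟩
      rw [show uu s * b + 6 * uu s * j = uu s * (b + 6 * j) by ring, ev_u, ev_u,
        Int.add_mul_emod_self_left]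
      tauto
  · refine ⟨uu s, u.ne', fun j => ⟨fun e => (h ?_).elim, fun e => (h (ev_uu e)).elim⟩⟩
    simpa using dvd_sub (ev_uu e) (Dvd.intro j rfl)

theorem recur (r n : ℤ) : ∃ p, p ≠ 0 ∧ ∀ j, agree r (n + p * j) n := by
  choose p h0 hp using fun a : ℤ => toep _ 0 a le_rfl
  refine ⟨∏ i ∈ Finset.Icc (-r) r, p (n + i), Finset.prod_ne_zero_iff.2 fun _ _ => h0 _,
    fun j i hi => ?_⟩
  obtain ⟨c, hc⟩ := Finset.dvd_prod_of_mem (fun i => p (n + i)) (Finset.mem_Icc.2 (abs_le.1 hi))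
  simpa [LL, hc, mul_assoc, add_right_comm] using hp (n + i) (c * j)

/-- the sign -/
def sg (a : ZMod 2) : ZMod 3 := if a = 0 then 1 else -1

theorem simpleD (T : AddSubgroup (ℤ → ZMod 3)) (h1 : ∀ d ∈ T, ∀ j, (fun n => d (n + j)) ∈ T)
    (h2 : ∀ d ∈ T, ∀ i, (fun n => sg (EE 0 (n + i)) * d n) ∈ T) {u} (hu : u ∈ T) (h0 : u ≠ 0)
    (hl : Lo u) {g} (hg : Lo g) : g ∈ T := by
  let S : Subring (ℤ → ZMod 3) :=
    { carrier := {g | ∀ d ∈ T, g * d ∈ T}
      one_mem' := by simp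
      zero_mem' := by simp
      mul_mem' := fun ha hb d hd => by rw [mul_assoc]; exact ha _ (hb d hd)
      add_mem' := fun ha hb d hd => by rw [add_mul]; exact add_mem (ha d hd) (hb d hd)
      neg_mem' := fun ha d hd => by rw [neg_mul]; exact neg_mem (ha d hd) }
  have hS : ∀ g, Lo g → g ∈ S := by
    rintro g ⟨r, hr⟩
    let pat : ℤ → Finset.Icc (-r) r → ZMod 2 := fun n i => EE 0 (n + i)
    have c : ∀ a : ZMod 3, (fun _ => a) ∈ S := fun a => by
      convert natCast_mem S a.val using 1; ext; simp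
    have : g = ∑ w, (fun _ => if h : ∃ n, pat n = w then g h.choose else 0) *
        ∏ i, -(1 + (fun _ => sg (w i)) * fun n => sg (pat n i)) := by
      ext n
      have e : ∀ a b, -(1 + sg a * sg b) = if a = b then 1 else 0 := by decide
      simp only [Finset.sum_apply, Pi.mul_apply, Finset.prod_apply, Pi.neg_apply, Pi.add_apply,
        Pi.one_apply, e, Finset.prod_ite_zero, Finset.prod_const_one, Finset.mem_univ,
        forall_const, ← funext_iff, mul_ite, mul_one, mul_zero]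
      have h : ∃ m, pat m = pat n := ⟨n, rfl⟩
      rw [Finset.sum_ite_eq', if_pos (Finset.mem_univ _), dif_pos h]
      refine hr _ _ fun i hi => ?_
      have := congrFun h.choose_spec ⟨i, Finset.mem_Icc.2 (abs_le.1 hi)⟩
      generalize h.choose = t at this ⊢
      simp only [pat, EE] at this
      by_cases a : Ev 0 (n + i) <;> by_cases b : Ev 0 (t + i) <;> simp [a, b] at this ⊢
    rw [this]
    exact sum_mem fun w _ => mul_mem (c _) (prod_mem fun i _ => neg_mem (add_mem (one_mem _)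
      (mul_mem (c _) fun d hd => h2 d hd i)))
  obtain ⟨n, hn⟩ := Function.ne_iff.1 h0
  obtain ⟨r, hr⟩ := hl
  obtain ⟨p, p0, hp⟩ := recur r n
  let e : ℤ → ℤ → ZMod 3 := fun j m => if p ∣ m + j - n then 1 else 0
  have l : ∀ j, Lo (e j) := fun j => lo_per p0 fun m => by
    simp [e, show m + p + j - n = m + j - n + p by ring]
  have a1 : e 0 ∈ T := by
    convert hS _ ((l 0).one (· * u n)) u hu using 1
    ext m
    simp only [e, Pi.mul_apply, add_zero]
    split_ifs with h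
    · obtain ⟨j, hj⟩ := h
      have : ∀ a : ZMod 3, a ≠ 0 → 1 = 1 * a * a := by decide
      rw [show m = n + p * j by linarith, hr _ _ (hp j)]
      exact this _ hn
    · simp
  have a2 : ∀ s : Finset ℤ, 1 - ∏ j ∈ s, (1 - e j) ∈ T := fun s => by
    induction s using Finset.induction_on with
    | empty => simp
    | insert j s hj ih =>
      have : e j ∈ T := by simpa [e] using h1 _ a1 j
      convert add_mem ih (prod_mem (t := s) (fun j _ => sub_mem (one_mem S) (hS _ (l j))) _ this)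
        using 1
      rw [Finset.prod_insert hj]; ring
  convert hS g hg _ (a2 (Finset.Ico 0 |p|)) using 1
  ext m
  rw [Pi.mul_apply, Pi.sub_apply, Finset.prod_apply, Finset.prod_eq_zero (i := (n - m) % p)
    (Finset.mem_Ico.2 ⟨Int.emod_nonneg _ p0, Int.emod_lt_abs _ p0⟩)]
  · simp
  · have : p ∣ m + (n - m) % p - n := by
      rw [Int.emod_def]; exact ⟨-((n - m) / p), by ring⟩
    simp [e, this]

theorem chain {k : ℤ} (hk : k ≠ 0) : ∃ p : ℕ → ℤ → ZMod 3, p 0 = 1 ∧ (∀ n, Lo (p n)) ∧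
    ∀ n m, p (n + 1) (m + k) - p (n + 1) m = p n m := by
  choose! q Q h0 h1 h2 using fun (p : ℤ → ZMod 3) (P : ℤ) =>
    anti (X := ZMod 3) three_ne_zero (by decide) hk (p := p) (P := P)
  let f : ℕ → (ℤ → ZMod 3) × ℤ := fun n => Nat.rec (1, 1) (fun _ x => (q x.1 x.2, Q x.1 x.2)) n
  have : ∀ n, (f n).2 ≠ 0 ∧ Function.Periodic (f n).1 (f n).2 := fun n => by
    induction n with
    | zero => exact ⟨one_ne_zero, fun _ => rfl⟩
    | succ n ih => exact ⟨h0 _ _ ih.1 ih.2, h1 _ _ ih.1 ih.2⟩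
  exact ⟨fun n => (f n).1, rfl, fun n => lo_per (this n).1 (this n).2,
    fun n => h2 _ _ (this n).1 (this n).2⟩

end Pool.Agent.H.MP_5f4fc7_al
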