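import Pool.Agent.H.MP_5f4fc7_al.Nil
import Pool.Agent.H.MP_5f4fc7_al.Toep
import Pool.Agent.H.MP_5f4fc7_al.Fock

set_option maxHeartbeats 400000

namespace Pool.Agent.H.MP_5f4fc7_al

open scoped commutatorElement

/-- additive characters -/
noncomputable def ww (n : ℤ) : B →ₗ[ZMod 2] ZMod 2 :=
  Finsupp.linearCombination _ fun i => EE 0 (n + i)

@[simp] theorem ww_sh (n k : ℤ) (e : B) : ww n (sh k e) = ww (n + k) e := by
  induction e using Finsupp.induction_linear with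
  | zero => simp
  | add a b ha hb => simp [ha, hb]
  | single i a =>
    have e : sh k (Finsupp.single i a) = Finsupp.single (i + k) a := by simp [sh]
    simp [ww, e, add_assoc, add_comm i]

theorem lo_ww (e : B) : Lo fun n => ww n e := by
  induction e using Finsupp.induction_linear with
  | zero => simpa using lo_const 0
  | add a b ha hb => simpa using Lo.two (· + ·) ha hb
  | single i a => simpa [ww] using ((lo_EE 0).sh i).one (a * ·)

theorem cob_ww {k : ℤ} (hk : k ≠ 0) (e : B) : (fun n => ww n e) ∈ Cob k := by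
  induction e using Finsupp.induction_linear with
  | zero => simp only [map_zero]; exact (Cob k).zero_mem
  | add a b ha hb => simp only [map_add]; exact (Cob k).add_mem ha hb
  | single i a =>
    have : ∀ a : ZMod 2, a = 0 ∨ a = 1 := by decide
    rcases this a with rfl | rfl
    · simp only [Finsupp.single_zero, map_zero]; exact (Cob k).zero_mem
    · simpa [ww] using cob_sh (cob_EE hk) i

@[simp] theorem sg_add : ∀ a b, sg (a + b) = sg a * sg b := by decide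
@[simp] theorem sg_sub : ∀ a b, sg (a - b) = sg a * sg b := by decide
@[simp] theorem sg_zero : sg 0 = 1 := rfl
@[simp] theorem sg_sq : ∀ a, sg a * sg a = 1 := by decide
@[simp] theorem sg_sq' : ∀ a x, sg a * (sg a * x) = x := by decide

theorem inf0 : Inf 0 0 0 := ⟨0, by simp⟩
theorem loc0 : ∃ r, Loc r 0 := ⟨0, fun _ _ _ => rfl⟩

/-- the group -/
@[ext] structure GG where
  f : B → ZMod 2
  b : B
  d : ℤ → ZMod 3
  e : B
  k : ℤ
  hl : ∃ r, Loc r f
  hi : ∃ c, Inf f b c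
  hd : Lo d

namespace GG

noncomputable instance : Mul GG := ⟨fun x y =>
  ⟨fun a => x.f (sh (-y.k) (a + y.b)) + y.f a, y.b + sh y.k x.b,
    fun n => sg (ww (n + y.k) x.e) * y.d n + x.d (n + y.k), y.e + sh y.k x.e, x.k + y.k,
    loc_op x.hl y.hl _ _, x.hi.elim fun _ h => y.hi.elim fun _ h' => ⟨_, inf_op h h' _ _⟩,
    Lo.two (· + ·) (Lo.two (fun a b => sg a * b) ((lo_ww x.e).sh _) y.hd) (x.hd.sh _)⟩⟩

noncomputable instance : One GG := ⟨⟨0, 0, 0, 0, 0, loc0, ⟨0, inf0⟩, lo_const 0⟩⟩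

noncomputable instance : Inv GG := ⟨fun x =>
  ⟨fun a => x.f (sh x.k a + x.b), sh (-x.k) x.b,
    fun n => -(sg (ww (n + -x.k) x.e) * x.d (n + -x.k)), sh (-x.k) x.e, -x.k,
    by simpa using loc_op x.hl loc0 (-x.k) (sh (-x.k) x.b),
    x.hi.elim fun _ h => ⟨_, by simpa using inf_op h inf0 (-x.k) (sh (-x.k) x.b)⟩,
    Lo.two (fun a b => -(sg a * b)) ((lo_ww x.e).sh _) (x.hd.sh _)⟩⟩

variable (x y : GG)

@[simp] theorem mul_f (a : B) : (x * y).f a = x.f (sh (-y.k) (a + y.b)) + y.f a := rfl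
@[simp] theorem mul_b : (x * y).b = y.b + sh y.k x.b := rfl
@[simp] theorem mul_d (n : ℤ) :
    (x * y).d n = sg (ww (n + y.k) x.e) * y.d n + x.d (n + y.k) := rfl
@[simp] theorem mul_e : (x * y).e = y.e + sh y.k x.e := rfl
@[simp] theorem mul_k : (x * y).k = x.k + y.k := rfl
@[simp] theorem one_f : (1 : GG).f = 0 := rfl
@[simp] theorem one_b : (1 : GG).b = 0 := rfl
@[simp] theorem one_d : (1 : GG).d = 0 := rfl
@[simp] theorem one_e : (1 : GG).e = 0 := rfl
@[simp] theorem one_k : (1 : GG).k = 0 := rfl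
@[simp] theorem inv_f (a : B) : x⁻¹.f a = x.f (sh x.k a + x.b) := rfl
@[simp] theorem inv_b : x⁻¹.b = sh (-x.k) x.b := rfl
@[simp] theorem inv_d (n : ℤ) : x⁻¹.d n = -(sg (ww (n + -x.k) x.e) * x.d (n + -x.k)) := rfl
@[simp] theorem inv_e : x⁻¹.e = sh (-x.k) x.e := rfl
@[simp] theorem inv_k : x⁻¹.k = -x.k := rfl

noncomputable instance : Group GG := Group.ofLeftAxioms
  (fun x y z => by
    refine GG.ext (funext fun a => ?_) ?_ (funext fun n => ?_) ?_ ?_
    · simp [add_assoc, add_comm (-z.k)]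
    · simp [add_assoc]
    · simp [add_assoc, add_comm z.k]; ring
    · simp [add_assoc]
    · simp [add_assoc])
  (fun x => by ext <;> simp)
  (fun x => by ext <;> simp [z2])

end GG

/-- the abelian normal subgroup -/
def VV : Subgroup GG where
  carrier := {x | x.b = 0 ∧ x.e = 0 ∧ x.k = 0}
  one_mem' := by simp
  mul_mem' := by simp +contextual
  inv_mem' := by simp +contextual

theorem mem_VV {x : GG} : x ∈ VV ↔ x.b = 0 ∧ x.e = 0 ∧ x.k = 0 := Iff.rfl

instance : VV.Normal := ⟨by simp +contextual [mem_VV]⟩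

theorem VV_comm : ∀ a ∈ VV, ∀ b ∈ VV, a * b = b * a := fun a ha b hb => by
  rw [mem_VV] at ha hb
  ext <;> simp [ha, hb, add_comm]

theorem cm_f {v : GG} (hv : v ∈ VV) (h : GG) (a : B) :
    ⁅v, h⁆.f a = v.f (sh h.k a + h.b) + v.f a := by
  rw [mem_VV] at hv
  simp [commutatorElement_def, hv]
  linear_combination z2 (h.f (sh h.k a + h.b))

theorem cm_d {v : GG} (hv : v ∈ VV) (h : GG) (n : ℤ) :
    ⁅v, h⁆.d n = v.d n - sg (ww (n - h.k) h.e) * v.d (n - h.k) := by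
  rw [mem_VV] at hv
  simp [commutatorElement_def, hv, ← sub_eq_add_neg]
  ring

/-- the kernel of the degree -/
def K0 : Subgroup GG where
  carrier := {x | x.k = 0}
  one_mem' := by simp
  mul_mem' := by simp +contextual
  inv_mem' := by simp +contextual

theorem cm_K0 : ⁅K0, K0⁆ ≤ VV := Subgroup.commutator_le.2 fun a (ha : a.k = 0) b (hb : b.k = 0) => by
  simp [mem_VV, commutatorElement_def, ha, hb, add_comm, add_left_comm]

theorem solv : IsSolvable GG := by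
  have h1 : derivedSeries GG 1 ≤ K0 := Subgroup.commutator_le.2 fun a _ b _ => by
    show _ = _
    simp [commutatorElement_def]
  have h2 : derivedSeries GG 2 ≤ VV := (Subgroup.commutator_mono h1 h1).trans cm_K0
  exact ⟨3, eq_bot_iff.2 ((Subgroup.commutator_mono h2 h2).trans (Subgroup.commutator_le.2
    fun a ha b hb => commutatorElement_eq_one_iff_mul_comm.2 (VV_comm a ha b hb)))⟩

theorem ex_b (b : B) : ∃ y : GG, y.b = b ∧ y.d = 0 ∧ y.e = 0 ∧ y.k = 0 := by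
  induction b using Finsupp.induction_linear with
  | zero => exact ⟨1, rfl, rfl, rfl, rfl⟩
  | add a b ha hb =>
    obtain ⟨x, hx⟩ := ha
    obtain ⟨y, hy⟩ := hb
    exact ⟨y * x, by simp [hx, hy], by ext; simp [hx, hy], by simp [hx, hy], by simp [hx, hy]⟩
  | single i a =>
    refine ⟨⟨fun x => a * x i * rho i x, Finsupp.single i a, 0, 0, 0, ⟨i + 1, fun x y h => ?_⟩,
      ⟨0, 0, fun x _ _ _ => ?_⟩, lo_const 0⟩, rfl, rfl, rfl, rfl⟩
    · have : ∀ j : ℕ, low x (i - 2 ^ j) ↔ low y (i - 2 ^ j) := fun j => by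
        have : (0 : ℤ) < 2 ^ j := by positivity
        unfold low
        rw [h _ (by omega)]
        exact and_congr_right fun _ => forall₂_congr fun w hw => by rw [h _ (by omega)]
      have : rho i x = rho i y := by unfold rho; rw [exists_congr this]
      simp only [h i (by omega), this]
    · have : Finsupp.single i a * x = Finsupp.single i (a * x i) := by
        ext j; by_cases h : j = i <;> simp [h]
      rw [this, add_zero, RR, Finsupp.linearCombination_single, smul_eq_mul]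

/-- the shift element -/
noncomputable def tt (k : ℤ) : GG := ⟨0, 0, 0, 0, k, loc0, ⟨0, inf0⟩, lo_const 0⟩

section
variable {N : ℕ → Subgroup GG} (hN : ∀ n, (N n).Normal) (hm : Monotone N)

/-- stabilisation on a layer -/
def St (N : ℕ → Subgroup GG) (P : GG → Prop) : Prop := ∃ n, ∀ m, n ≤ m → ∀ x ∈ N m, P x → x ∈ N n

include hm in
theorem up {X : Type} {P : GG → Prop} (c : GG → X → Prop)
    (h2 : ∀ x y a, c x a → c y a → P (x * y⁻¹))
    (h3 : ∃ n, ∀ m, n ≤ m → ∀ x ∈ N m, ∀ a, c x a → ∃ y ∈ N n, c y a) (h : St N P) :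
    St N fun x => ∃ a, c x a := by
  obtain ⟨n, hn⟩ := h
  obtain ⟨l, hl⟩ := h3
  refine ⟨max n l, fun m h x hx ⟨a, ha⟩ => ?_⟩
  obtain ⟨y, hy, hb⟩ := hl m (by omega) x hx a ha
  simpa using mul_mem (hm (le_max_left n l) (hn m (by omega) _
    (mul_mem hx (inv_mem (hm (by omega) hy))) (h2 x y a ha hb))) (hm (le_max_right n l) hy)

include hm hN in
theorem upB {P : GG → Prop} (c : GG → B → Prop) (h2 : ∀ x y a, c x a → c y a → P (x * y⁻¹))
    (c1 : c 1 0) (cm : ∀ x y a b, c x a → c y b → c (x * y) (a + b))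
    (cs : ∀ x a k, c x a → c (tt (-k) * x * (tt (-k))⁻¹) (sh k a)) (h : St N P) :
    St N fun x => ∃ a, c x a := by
  obtain ⟨n, hn⟩ := noeth (fun n => ⟨⟨⟨{a | ∃ x ∈ N n, c x a}, fun ⟨x, hx, h⟩ ⟨y, hy, h'⟩ =>
    ⟨_, mul_mem hx hy, cm _ _ _ _ h h'⟩⟩, 1, one_mem _, c1⟩, fun {a} h => by
      rwa [neg_eq_of_add_eq_zero_left (bb a)]⟩) (fun _ _ h _ ⟨x, hx, e⟩ => ⟨x, hm h hx, e⟩)
    fun n _ ⟨x, hx, e⟩ k => ⟨_, (hN n).conj_mem _ hx _, cs _ _ k e⟩
  exact up hm c h2 ⟨n, fun m h x hx a ha => (SetLike.ext_iff.1 (hn m h) a).1 ⟨x, hx, ha⟩⟩ h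

include hm hN in
theorem maxn : ∃ n, ∀ m, n ≤ m → N m = N n := by
  have s0 : St N (· = 1) := ⟨0, fun _ _ _ _ h => h ▸ one_mem _⟩
  have im : ∀ x ∈ VV, ∀ y ∈ VV, ∀ a b, Inf x.f 0 a → Inf y.f 0 b → Inf (x * y).f 0 (a + b) :=
    fun x hx y hy a b h h' => by
      convert inf_op h h' y.k y.b using 1 <;> [rfl; simp; simp [hy.2.2, add_comm]]
  have ii : ∀ x ∈ VV, x⁻¹.f = x.f := fun x hx => by ext; simp [hx.1, hx.2.2]
  have s1 := up hm (fun x a => (x ∈ VV ∧ Inf x.f 0 0 ∧ x.d = 0) ∧ x.f = a) (fun x y a h h' => by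
    simp only [mem_VV] at h h'
    ext <;> simp [h, h', z2]) (by
      by_cases h : ∃ n, ∃ x ∈ N n, (x ∈ VV ∧ Inf x.f 0 0 ∧ x.d = 0) ∧ x.f ≠ 0
      · obtain ⟨n, x, hx, h1, h2⟩ := h
        refine ⟨n, fun m _ y _ a ha => simpleA ⟨⟨⟨{a | ∃ x ∈ N n,
          (x ∈ VV ∧ Inf x.f 0 0 ∧ x.d = 0) ∧ x.f = a}, ?_⟩, 1, one_mem _, ⟨one_mem _, inf0, rfl⟩,
          rfl⟩, fun {a} h => by rwa [show -a = a from funext fun i => ZMod.neg_eq_self_mod_two _]⟩ ?_ ?_
          ⟨x, hx, h1, rfl⟩ h2 x.hl h1.2.1 (ha.2 ▸ y.hl) (ha.2 ▸ ha.1.2.1)⟩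
        · rintro _ _ ⟨x, hx, h, rfl⟩ ⟨y, hy, h', rfl⟩
          have := h.1; have := h'.1
          refine ⟨_, mul_mem hx hy, ⟨mul_mem h.1 h'.1, ?_, ?_⟩, ?_⟩
          · simpa using im _ h.1 _ h'.1 0 0 h.2.1 h'.2.1
          · ext; simp [h, h']
          · ext; simp_all [mem_VV]
        · rintro _ ⟨x, hx, h, rfl⟩ b
          obtain ⟨y, h1, h2, h3, h4⟩ := ex_b b
          have := h.1
          have e : (y * x * y⁻¹).f = fun a => x.f (a + b) := by
            ext a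
            simp_all [mem_VV]
            linear_combination z2 (y.f (a + b))
          refine ⟨_, (hN n).conj_mem _ hx y, ⟨Subgroup.Normal.conj_mem inferInstance _ h.1 _,
            ?_, ?_⟩, e⟩
          · simpa [e] using inf_op h.2.1 inf0 0 b
          · ext; simp [h, h2]
        · rintro _ ⟨x, hx, h, rfl⟩ k
          have e : (tt k * x * (tt k)⁻¹).f = fun a => x.f (sh k a) := by ext a; simp [tt]
          refine ⟨_, (hN n).conj_mem _ hx (tt k), ⟨Subgroup.Normal.conj_mem inferInstance _ h.1 _,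
            ?_, ?_⟩, e⟩
          · simpa [e] using inf_op h.2.1 inf0 (-k) 0
          · ext; simp [h, tt]
      · push Not at h
        exact ⟨0, fun m _ x hx a ha => ⟨1, one_mem _, ⟨one_mem _, inf0, rfl⟩,
          (h m x hx ha.1).symm.trans ha.2⟩⟩) s0
  have s2 := up hm (fun x a => (x ∈ VV ∧ Inf x.f 0 0) ∧ x.d = a) (fun x y a h h' => by
    refine ⟨_, ⟨mul_mem h.1.1 (inv_mem h'.1.1), ?_, ?_⟩, rfl⟩
    · simpa using im x h.1.1 _ (inv_mem h'.1.1) 0 0 h.1.2 ((ii y h'.1.1).symm ▸ h'.1.2)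
    · simp only [mem_VV] at h h'
      ext; simp [h, h']) (by
      by_cases h : ∃ n, ∃ x ∈ N n, (x ∈ VV ∧ Inf x.f 0 0) ∧ x.d ≠ 0
      · obtain ⟨n, x, hx, h1, h2⟩ := h
        refine ⟨n, fun m _ y _ a ha => simpleD ⟨⟨⟨{a | ∃ x ∈ N n,
          (x ∈ VV ∧ Inf x.f 0 0) ∧ x.d = a}, ?_⟩, 1, one_mem _, ⟨one_mem _, inf0⟩,
          rfl⟩, ?_⟩ ?_ ?_ ⟨x, hx, h1, rfl⟩ h2 x.hd (ha.2 ▸ y.hd)⟩
        · rintro _ _ ⟨x, hx, h, rfl⟩ ⟨y, hy, h', rfl⟩
          refine ⟨_, mul_mem hy hx, ⟨mul_mem h'.1 h.1, ?_⟩, ?_⟩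
          · simpa using im _ h'.1 _ h.1 0 0 h'.2 h.2
          · ext; simp [h.1.2, h'.1.2]
        · rintro _ ⟨x, hx, h, rfl⟩
          exact ⟨_, inv_mem hx, ⟨inv_mem h.1, (ii x h.1).symm ▸ h.2⟩, by ext; simp [h.1.2]⟩
        · rintro _ ⟨x, hx, h, rfl⟩ k
          refine ⟨_, (hN n).conj_mem _ hx (tt (-k)),
            ⟨Subgroup.Normal.conj_mem inferInstance _ h.1 _, ?_⟩, by ext; simp [tt]⟩
          convert inf_op h.2 inf0 k 0 using 1 <;> [(ext; simp [tt]); simp; simp]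
        · rintro _ ⟨x, hx, h, rfl⟩ i
          refine ⟨_, (hN n).conj_mem _ hx ⟨0, 0, 0, Finsupp.single i 1, 0, loc0, ⟨0, inf0⟩,
            lo_const 0⟩, ⟨Subgroup.Normal.conj_mem inferInstance _ h.1 _, ?_⟩,
            by ext; simp [ww, h.1.2.2]⟩
          convert h.2 using 1
          ext; simp
      · push Not at h
        exact ⟨0, fun m _ x hx a ha => ⟨1, one_mem _, ⟨one_mem _, inf0⟩,
          (h m x hx ha.1).symm.trans ha.2⟩⟩) s1
  have s3 := upB hN hm (fun x a => x ∈ VV ∧ Inf x.f 0 a) (fun x y a h h' =>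
    ⟨_, ⟨mul_mem h.1 (inv_mem h'.1), by
      simpa using im x h.1 _ (inv_mem h'.1) a a h.2 ((ii y h'.1).symm ▸ h'.2)⟩, rfl⟩)
    ⟨one_mem _, inf0⟩ (fun x y a b h h' => ⟨mul_mem h.1 h'.1, im _ h.1 _ h'.1 _ _ h.2 h'.2⟩)
    (fun x a k h => ⟨Subgroup.Normal.conj_mem inferInstance _ h.1 _, by
      convert inf_op h.2 inf0 k 0 using 1 <;> [(ext; simp [tt]); simp; simp]⟩) s2
  have s4 := upB hN hm (fun x a => x.k = 0 ∧ x.e = 0 ∧ x.b = a) (fun x y a h h' => by
    have e : (x * y⁻¹).b = 0 := by simp [h, h']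
    obtain ⟨c, hc⟩ := (x * y⁻¹).hi
    exact ⟨c, ⟨e, by simp [h, h'], by simp [h, h']⟩, e ▸ hc⟩) (by simp)
    (by simp +contextual [add_comm]) (by simp +contextual [tt]) s3
  have s5 := upB hN hm (fun x a => x.k = 0 ∧ x.e = a) (by simp +contextual) (by simp)
    (by simp +contextual [add_comm]) (by simp +contextual [tt]) s4
  obtain ⟨n, hn⟩ := up hm (fun x a => x.k = a) (by simp +contextual) (by
    obtain ⟨n, hn⟩ := monotone_stabilizes_iff_noetherian.2 (inferInstance : IsNoetherian ℤ ℤ)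
      ⟨fun n => AddSubgroup.toIntSubmodule ⟨⟨⟨{a | ∃ x ∈ N n, x.k = a},
        fun ⟨x, hx, h⟩ ⟨y, hy, h'⟩ => ⟨_, mul_mem hx hy, by simp [h, h']⟩⟩, 1, one_mem _, rfl⟩,
        fun ⟨x, hx, h⟩ => ⟨_, inv_mem hx, by simp [h]⟩⟩, fun _ _ h _ ⟨x, hx, e⟩ => ⟨x, hm h hx, e⟩⟩
    exact ⟨n, fun m h x hx a ha => (SetLike.ext_iff.1 (hn m h) a).2 ⟨x, hx, ha⟩⟩) s5
  exact ⟨n, fun m h => le_antisymm (fun x hx => hn m h x hx ⟨_, rfl⟩) (hm h)⟩

end

end Pool.Agent.H.MP_5f4fc7_al
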